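import Pool.Agent.H705Z.ExpMain

set_option autoImplicit false

namespace Pool.Agent.Results.MP_038775_ag.ANotExponential

open Pool.Agent.H705Z.Expo

theorem result (k : Type*) [Field k] (p : ℕ) (hp : p.Prime) [CharP k p] (n : ℕ) (hn : 3 ≤ n) :
    ∃ φ : MvPolynomial (Fin n) k ≃ₐ[k] MvPolynomial (Fin n) k,
      orderOf φ = p ∧ ¬ IsExponential φ := by
  obtain ⟨m, rfl⟩ : ∃ m, n = m + 3 := ⟨n - 3, by omega⟩
  haveI : Fact p.Prime := ⟨hp⟩
  exact ⟨phi k p m, orderOf_phi k p m, not_exp k p m⟩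

end Pool.Agent.Results.MP_038775_ag.ANotExponential
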